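import Mathlib

/-!
Statements of the tasks for Smyth's conjecture over number fields (MP_ed3ef1_nt, S18875).
(These are only statements; each is proved in its own module.)
-/

set_option autoImplicit false

open scoped NumberField

namespace Pool.Agent.Y794.Sm

/-- T2: theta series of a lattice with linearly independent generators. -/
def StGauss : Prop :=
  ∀ (E : Type) [NormedAddCommGroup E] [InnerProductSpace ℝ E] (m : ℕ) (b : Fin m → E),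
    LinearIndependent ℝ b →
    ∃ C A B : ℝ, 0 < C ∧ 0 ≤ A ∧ 0 < B ∧ ∀ s : ℝ, 0 < s → s ≤ 1 →
      ∀ y₀ ∈ Submodule.span ℝ (Set.range b), ∀ y₁ : E, (∀ k, inner ℝ y₁ (b k) = 0) →
        Summable (fun z : Fin m → ℤ =>
          Real.exp (-s * ‖y₀ + y₁ + ∑ k, (z k : ℝ) • b k‖ ^ 2)) ∧
        |∑' z : Fin m → ℤ, Real.exp (-s * ‖y₀ + y₁ + ∑ k, (z k : ℝ) • b k‖ ^ 2) -
            C * (1 / Real.sqrt s) ^ m * Real.exp (-s * ‖y₁‖ ^ 2)| ≤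
          A * Real.exp (-B / s) * (C * (1 / Real.sqrt s) ^ m * Real.exp (-s * ‖y₁‖ ^ 2))

/-- T3: the analytic argument. -/
def StAT : Prop :=
  ∀ (n : ℕ) (T X : Type) (p : Fin n → X → T) (Q : X → ℝ) (q : T → ℝ), (∀ t, 0 ≤ q t) →
    (∀ i, ∃ (c : ℝ → ℝ) (C A B : ℝ) (k : ℕ), 0 < B ∧ 0 ≤ A ∧
      ∀ s : ℝ, 0 < s → s ≤ 1 → 0 < c s ∧ c s ≤ C * (1 / s) ^ k ∧ ∀ t,
        Summable (fun x : {x // p i x = t} => Real.exp (-s * Q x)) ∧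
        |∑' x : {x // p i x = t}, Real.exp (-s * Q x) - c s * Real.exp (-s * q t)| ≤
          A * Real.exp (-B / s) * (c s * Real.exp (-s * q t))) →
    (∃ (C : ℝ) (k : ℕ), ∀ s : ℝ, 0 < s → s ≤ 1 →
      Summable (fun t => Real.exp (-s * q t)) ∧ ∑' t, Real.exp (-s * q t) ≤ C * (1 / s) ^ k) →
    ∀ f : Fin n → T → ℝ, (∀ t, ∑ i, f i t = 0) → (∀ x, 0 ≤ ∑ i, f i (p i x)) →
      (∀ δ : ℝ, 0 < δ → ∃ A : ℝ, ∀ i t, |f i t| ≤ A * Real.exp (δ * Real.sqrt (q t))) →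
      ∀ x, ∑ i, f i (p i x) = 0

/-- T3b: the growth bound from the contraction property. -/
def StGrow : Prop :=
  ∀ (n : ℕ) (T X : Type) (p : Fin n → X → T) (N : T → ℝ), (∀ t, 0 ≤ N t) →
    (∀ M : ℝ, {t | N t ≤ M}.Finite) →
    (∃ c C : ℝ, 0 ≤ c ∧ c < 1 ∧ ∀ i t, ∃ x, p i x = t ∧ ∀ j, j ≠ i → N (p j x) ≤ c * N t + C) →
    ∀ f : Fin n → T → ℝ, (∀ t, ∑ i, f i t = 0) → (∀ x, 0 ≤ ∑ i, f i (p i x)) →
      ∀ δ : ℝ, 0 < δ → ∃ A : ℝ, ∀ i t, |f i t| ≤ A * Real.exp (δ * N t)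

/-- T4: duality. -/
def StDual : Prop :=
  ∀ (n : ℕ) (T X : Type) (p : Fin n → X → T) (N : T → ℝ), 0 < n →
    (∀ M : ℝ, {t | N t ≤ M}.Finite) →
    (∃ R : ℝ, ∀ i t, R < N t → ∃ x, p i x = t ∧ ∀ j, j ≠ i → N (p j x) < N t) →
    (∀ f : Fin n → T → ℝ, (∀ t, ∑ i, f i t = 0) → (∀ x, 0 ≤ ∑ i, f i (p i x)) →
      ∀ x, ∑ i, f i (p i x) = 0) →
    ∀ x₀ : X, ∃ w : X →₀ ℝ, (∀ x, 0 ≤ w x) ∧ 0 < w x₀ ∧
      ∀ i j, w.mapDomain (p i) = w.mapDomain (p j)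

/-- T5: from real weights to permutations. -/
def StRat : Prop :=
  ∀ (n : ℕ) (T X : Type) (p : Fin n → X → T) (x₀ : X) (w : X →₀ ℝ), (∀ x, 0 ≤ w x) → 0 < w x₀ →
    (∀ i j, w.mapDomain (p i) = w.mapDomain (p j)) →
    ∃ N₀ : ℕ, 0 < N₀ ∧ ∀ m : ℕ, 0 < m →
      ∃ (x : Fin (N₀ * m) → X) (π : Fin n → Equiv.Perm (Fin (N₀ * m))) (v : Fin (N₀ * m) → T),
        (∀ i e, p i (x e) = v (π i e)) ∧ ∃ e, x e = x₀

/-- T6: from permutations to conjugates. -/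
def StGal : Prop :=
  ∀ (K : Type) [Field K] [NumberField K], ∃ n₀ : ℕ, ∀ N : ℕ, n₀ ≤ N →
    ∀ (n : ℕ) (a : Fin n → K) (x : Fin N → Fin n → K) (π : Fin n → Equiv.Perm (Fin N))
      (v : Fin N → K), (∀ i e, x e i = v (π i e)) → (∀ e, ∑ i, a i * x e i = 0) → (∃ e, v e ≠ 0) →
      ∃ α : Fin n → AlgebraicClosure K,
        (∀ i, α i ≠ 0) ∧ (∀ i j, minpoly K (α i) = minpoly K (α j)) ∧
        ∑ i, algebraMap K (AlgebraicClosure K) (a i) * α i = 0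

/-- T7a: the polygon lemma. -/
def StPoly : Prop :=
  ∀ (n : ℕ) (b : Fin (n + 1) → ℝ), (∀ i, 0 ≤ b i) →
    (∀ i, b i < ∑ j ∈ Finset.univ.erase i, b j) →
    ∃ u : Fin (n + 1) → Fin n → ℝ,
      (∀ j, ∑ k, u j k ^ 2 = 1) ∧ (∀ k, ∑ j, b j * u j k = 0) ∧
      (∀ z : Fin n → ℝ, (∀ j, ∑ k, u j k * z k = 0) → z = 0) ∧
      (∀ i j, i ≠ j → |∑ k, u i k * u j k| < 1)

/-- T9: the necessary conditions. -/
def StFwd : Prop :=
  ∀ (K : Type) [Field K] [NumberField K] (n : ℕ) (a : Fin n → 𝓞 K)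
    (α : Fin n → AlgebraicClosure K), (∀ i, α i ≠ 0) →
    (∀ i j, minpoly K (α i) = minpoly K (α j)) →
    ∑ i, algebraMap K (AlgebraicClosure K) (a i : K) * α i = 0 →
    (((∀ v : NumberField.InfinitePlace K, ∀ i : Fin n,
          v (a i : K) < ∑ j ∈ Finset.univ.erase i, v (a j : K)) ∧
      (∀ v : IsDedekindDomain.HeightOneSpectrum (𝓞 K), ∀ i : Fin n,
          ∃ j : Fin n, j ≠ i ∧ v.valuation K (a i : K) ≤ v.valuation K (a j : K))) ∨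
     ∃ ω : Fin n → AlgebraicClosure K,
        (∀ i, ∃ m : ℕ, 0 < m ∧ ω i ^ m = 1) ∧
        ∑ i, algebraMap K (AlgebraicClosure K) (a i : K) * ω i = 0)

/-- T10: relations between roots of unity. -/
def StRoot : Prop :=
  ∀ (K : Type) [Field K] [NumberField K] (n : ℕ) (a : Fin n → K)
    (ω : Fin n → AlgebraicClosure K), (∀ i, ∃ m : ℕ, 0 < m ∧ ω i ^ m = 1) →
    ∑ i, algebraMap K (AlgebraicClosure K) (a i) * ω i = 0 →
    ∃ α : Fin n → AlgebraicClosure K,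
        (∀ i, α i ≠ 0) ∧ (∀ i j, minpoly K (α i) = minpoly K (α j)) ∧
        ∑ i, algebraMap K (AlgebraicClosure K) (a i) * α i = 0

end Pool.Agent.Y794.Sm
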