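import Pool.Agent.Y794.Sm.Geo3

set_option autoImplicit false
set_option linter.unusedSectionVars false

open Finset NumberField Module
open scoped NumberField ComplexConjugate

namespace Pool.Agent.Y794.Sm

variable {K : Type} [Field K] [NumberField K] {N : ℕ}

theorem surj (a : Fin (N + 1) → 𝓞 K)
    (hv : ∀ v : IsDedekindDomain.HeightOneSpectrum (𝓞 K), ∀ i : Fin (N + 1),
          ∃ j : Fin (N + 1), j ≠ i ∧ v.valuation K (a i : K) ≤ v.valuation K (a j : K))
    (i : Fin (N + 1)) (t : 𝓞 K) : ∃ x ∈ XK a, x i = t := by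
  classical
  let I : Ideal (𝓞 K) := Ideal.span (Set.range (fun j : {j // j ≠ i} => a j))
  have hI : a i ∈ I := by
    let J : Ideal (𝓞 K) := Submodule.comap (LinearMap.mulRight (𝓞 K) (a i)) I
    have hJ : ∀ c, c ∈ J ↔ c * a i ∈ I := fun c => Iff.rfl
    by_contra hcon
    have hJne : J ≠ ⊤ := by
      intro h
      apply hcon
      have : (1 : 𝓞 K) ∈ J := by
        rw [h]
        exact Submodule.mem_top
      rw [hJ, one_mul] at this
      exact this
    obtain ⟨P, hP, hJP⟩ := Ideal.exists_le_maximal J hJne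
    have hPb : P ≠ ⊥ := Ring.ne_bot_of_isMaximal_of_not_isField hP (RingOfIntegers.not_isField K)
    obtain ⟨j, hji, hj⟩ := hv ⟨P, hP.isPrime, hPb⟩ i
    have hai : a i ≠ 0 := by
      intro h
      apply hcon
      rw [h]
      exact I.zero_mem
    have hai' : (a i : K) ≠ 0 := fun h =>
      hai (RingOfIntegers.coe_injective (h.trans (map_zero _).symm))
    have haj' : (a j : K) ≠ 0 := by
      intro h
      rw [h, map_zero, le_zero_iff, map_eq_zero] at hj
      exact hai' hj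
    obtain ⟨nn, d, hd⟩ := IsDedekindDomain.HeightOneSpectrum.exists_primeCompl_mul_eq_of_integer
      (⟨P, hP.isPrime, hPb⟩ : IsDedekindDomain.HeightOneSpectrum (𝓞 K)) ((a i : K) / (a j : K)) (by
        rw [map_div₀]
        refine div_le_one_of_le₀ hj ?_
        exact zero_le)
    have hd1 : (d : 𝓞 K) * a i = nn * a j := by
      apply RingOfIntegers.coe_injective
      rw [map_mul, map_mul]
      have h1 : (a i : K) / (a j : K) * algebraMap (𝓞 K) K d = algebraMap (𝓞 K) K nn := hd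
      show algebraMap (𝓞 K) K d * (a i : K) = algebraMap (𝓞 K) K nn * (a j : K)
      rw [← h1]
      field_simp
    have hdJ : (d : 𝓞 K) ∈ J := by
      rw [hJ, hd1]
      exact I.mul_mem_left _ (Ideal.subset_span ⟨⟨j, hji⟩, rfl⟩)
    exact d.2 (hJP hdJ)
  obtain ⟨c, hc⟩ := Submodule.mem_span_range_iff_exists_fun _ |>.1 hI
  refine ⟨fun k => if h : k ≠ i then - (t * c ⟨k, h⟩) else t, ?_, ?_⟩
  · rw [mem_XK, Fintype.sum_eq_add_sum_subtype_ne _ i]
    have h1 : ∀ k : {k // k ≠ i}, a k * (if h : (k : Fin (N + 1)) ≠ i then - (t * c ⟨k, h⟩) else t) =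
        - t * (c k • a k) := by
      intro k
      rw [dif_pos k.2, smul_eq_mul]
      ring
    simp only [h1]
    rw [← Finset.mul_sum, hc, dif_neg (by simp)]
    ring
  · exact dif_neg (by simp)

/-- T5 with the hypothesis `0 < n`. -/
def StRat' : Prop :=
  ∀ (n : ℕ) (T X : Type) (p : Fin n → X → T) (x₀ : X) (w : X →₀ ℝ), 0 < n →
    (∀ x, 0 ≤ w x) → 0 < w x₀ →
    (∀ i j, w.mapDomain (p i) = w.mapDomain (p j)) →
    ∃ N₀ : ℕ, 0 < N₀ ∧ ∀ m : ℕ, 0 < m →
      ∃ (x : Fin (N₀ * m) → X) (π : Fin n → Equiv.Perm (Fin (N₀ * m))) (v : Fin (N₀ * m) → T),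
        (∀ i e, p i (x e) = v (π i e)) ∧ ∃ e, x e = x₀

theorem back (hG : StGauss) (hAT : StAT) (hGr : StGrow) (hRat : StRat') (hGal : StGal)
    (hPoly : StPoly) (n : ℕ) (a : Fin n → 𝓞 K)
    (hinf : ∀ v : NumberField.InfinitePlace K, ∀ i : Fin n,
          v (a i : K) < ∑ j ∈ Finset.univ.erase i, v (a j : K))
    (hv : ∀ v : IsDedekindDomain.HeightOneSpectrum (𝓞 K), ∀ i : Fin n,
          ∃ j : Fin n, j ≠ i ∧ v.valuation K (a i : K) ≤ v.valuation K (a j : K)) :
    ∃ α : Fin n → AlgebraicClosure K,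
        (∀ i, α i ≠ 0) ∧ (∀ i j, minpoly K (α i) = minpoly K (α j)) ∧
        ∑ i, algebraMap K (AlgebraicClosure K) (a i : K) * α i = 0 := by
  classical
  rcases n with _ | N
  · exact ⟨fun i => i.elim0, fun i => i.elim0, fun i => i.elim0, by simp⟩
  choose u hu1 hu2 hu3 hu4 using fun w : InfinitePlace K =>
    hPoly N (fun j => w (a j : K)) (fun j => apply_nonneg w _) (hinf w)
  let ε : Fin (N + 1) → InfinitePlace K → ℂ := fun i w =>
    if a i = 0 then 1 else conj (w.embedding (a i : K)) / (w (a i : K) : ℂ)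
  have hne0 : ∀ i, a i ≠ 0 → ∀ w : InfinitePlace K, w (a i : K) ≠ 0 := by
    intro i hi w
    rw [Ne, map_eq_zero]
    exact fun h => hi (RingOfIntegers.coe_injective (h.trans (map_zero _).symm))
  have hnorm : ∀ i (w : InfinitePlace K), ‖w.embedding (a i : K)‖ = w (a i : K) := fun i w =>
    InfinitePlace.norm_embedding_eq w _
  have hε : ∀ i w, ‖ε i w‖ = 1 := by
    intro i w
    by_cases h : a i = 0
    · simp [ε, h]
    · simp only [ε, if_neg h]
      rw [norm_div, RCLike.norm_conj, hnorm, Complex.norm_real, Real.norm_eq_abs,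
        abs_of_nonneg (apply_nonneg w _)]
      exact div_self (hne0 i h w)
  have hεr : ∀ i w, InfinitePlace.IsReal w → (ε i w).im = 0 := by
    intro i w hw
    by_cases h : a i = 0
    · simp [ε, h]
    · simp only [ε, if_neg h]
      rw [← InfinitePlace.embedding_of_isReal_apply hw, Complex.conj_ofReal,
        ← Complex.ofReal_div, Complex.ofReal_im]
  have hεa : ∀ i w, w.embedding (a i : K) * ε i w = (w (a i : K) : ℂ) := by
    intro i w
    by_cases h : a i = 0
    · simp [h]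
    · simp only [ε, if_neg h]
      rw [← mul_div_assoc, Complex.mul_conj, Complex.normSq_eq_norm_sq, hnorm, Complex.ofReal_pow,
        sq]
      exact mul_div_cancel_right₀ _ (Complex.ofReal_ne_zero.2 (hne0 i h w))
  obtain ⟨w₀⟩ := (inferInstance : Nonempty (InfinitePlace K))
  have hne : ∀ i : Fin (N + 1), ∃ k, k ≠ i ∧ a k ≠ 0 := by
    intro i
    by_contra hcon
    push Not at hcon
    have h1 := hinf w₀ i
    rw [Finset.sum_eq_zero] at h1
    · exact absurd h1 (not_lt.2 (apply_nonneg w₀ _))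
    · intro k hk
      rw [hcon k (Finset.ne_of_mem_erase hk)]
      simp
  obtain ⟨D, hD⟩ := exists_dat a u ε hε hεr hεa hu1 hu2 hu3 hu4 (surj a hv) hne
  obtain ⟨x₀, hx₀, hx₀1⟩ := surj a hv 0 1
  let x₀' : D.X := ⟨x₀, by rw [hD]; exact hx₀⟩
  obtain ⟨w, hw1, hw2, hw3⟩ := D.main hG hAT hGr (Nat.succ_pos N) x₀'
  obtain ⟨N₀, hN₀, hR⟩ := hRat (N + 1) (𝓞 K) D.X (fun i x => (x : Fin (N + 1) → 𝓞 K) i) x₀' w
    (Nat.succ_pos N) hw1 hw2 hw3
  obtain ⟨n₀, hn₀⟩ := hGal K
  obtain ⟨x, π, v, h1, e, he⟩ := hR (n₀ + 1) (Nat.succ_pos _)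
  refine hn₀ (N₀ * (n₀ + 1)) (by nlinarith) (N + 1) (fun i => (a i : K))
    (fun e i => (((x e : Fin (N + 1) → 𝓞 K) i : 𝓞 K) : K)) π (fun e => (v e : K)) ?_ ?_ ?_
  · intro i e
    exact congrArg (fun y : 𝓞 K => (y : K)) (h1 i e)
  · intro e
    have h2 : (x e : Fin (N + 1) → 𝓞 K) ∈ XK a := by
      rw [← hD]
      exact (x e).2
    have h3 : ∑ i, a i * (x e : Fin (N + 1) → 𝓞 K) i = 0 := h2
    have h4 := congrArg (fun y : 𝓞 K => (y : K)) h3
    simpa using h4
  · refine ⟨π 0 e, ?_⟩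
    have h2 : (x e : Fin (N + 1) → 𝓞 K) 0 = v (π 0 e) := h1 0 e
    rw [he] at h2
    have h3 : (1 : 𝓞 K) = v (π 0 e) := by
      rw [← hx₀1]
      exact h2
    show ((v (π 0 e) : 𝓞 K) : K) ≠ 0
    rw [← h3]
    simp

theorem final (hG : StGauss) (hAT : StAT) (hGr : StGrow) (hRat : StRat') (hGal : StGal)
    (hPoly : StPoly) (hFwd : StFwd) (hRoot : StRoot) :
    ∀ (K : Type) [Field K] [NumberField K] (n : ℕ) (a : Fin n → 𝓞 K),
    (∃ α : Fin n → AlgebraicClosure K,
        (∀ i, α i ≠ 0) ∧ (∀ i j, minpoly K (α i) = minpoly K (α j)) ∧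
        ∑ i, algebraMap K (AlgebraicClosure K) (a i : K) * α i = 0) ↔
    (((∀ v : NumberField.InfinitePlace K, ∀ i : Fin n,
          v (a i : K) < ∑ j ∈ Finset.univ.erase i, v (a j : K)) ∧
      (∀ v : IsDedekindDomain.HeightOneSpectrum (𝓞 K), ∀ i : Fin n,
          ∃ j : Fin n, j ≠ i ∧ v.valuation K (a i : K) ≤ v.valuation K (a j : K))) ∨
     ∃ ω : Fin n → AlgebraicClosure K,
        (∀ i, ∃ m : ℕ, 0 < m ∧ ω i ^ m = 1) ∧
        ∑ i, algebraMap K (AlgebraicClosure K) (a i : K) * ω i = 0) := by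
  intro K _ _ n a
  constructor
  · rintro ⟨α, h1, h2, h3⟩
    exact hFwd K n a α h1 h2 h3
  · rintro (⟨h1, h2⟩ | ⟨ω, h1, h2⟩)
    · exact back hG hAT hGr hRat hGal hPoly n a h1 h2
    · exact hRoot K n (fun i => (a i : K)) ω h1 h2

end Pool.Agent.Y794.Sm
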