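import Pool.Agent.Y794.Sm.Dual

set_option autoImplicit false
set_option linter.unusedSectionVars false

open Finset

namespace Pool.Agent.Y794.Sm

/-- The geometric data. -/
structure Dat (n : ℕ) (Λ V U : Type) [AddCommGroup Λ] [NormedAddCommGroup V]
    [InnerProductSpace ℝ V] [NormedAddCommGroup U] [InnerProductSpace ℝ U] where
  X : Submodule ℤ (Fin n → Λ)
  j : Λ →+ V
  ι : (Fin n → Λ) →+ U
  P : Fin n → U →ₗ[ℝ] V
  A : Fin n → V →ₗ[ℝ] U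
  h1 : ∀ i t, P i (A i t) = t
  h2 : ∀ i t z, inner ℝ (A i t) z = inner ℝ t (P i z)
  h3 : ∀ x ∈ X, ∀ i, P i (ι x) = j (x i)
  c : ℝ
  hc0 : 0 ≤ c
  hc1 : c < 1
  h4 : ∀ i k, k ≠ i → ∀ t, ‖P k (A i t)‖ ≤ c * ‖t‖
  h5 : ∀ i t, ∃ x ∈ X, x i = t
  h6 : ∀ (m : ℕ) (b : Fin m → Λ), LinearIndependent ℤ b → LinearIndependent ℝ (fun k => j (b k))
  h7 : ∀ i, ∀ x ∈ X, ι x - A i (j (x i)) ∈ Submodule.span ℝ (ι '' {x | x ∈ X ∧ x i = 0})
  h8 : ∀ (m : ℕ) (b : Fin m → Fin n → Λ), (∀ k, b k ∈ X) → LinearIndependent ℤ b →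
    LinearIndependent ℝ (fun k => ι (b k))

namespace Dat

variable {n : ℕ} {Λ V U : Type} [AddCommGroup Λ] [Module.Free ℤ Λ] [Module.Finite ℤ Λ]
  [NormedAddCommGroup V]
  [InnerProductSpace ℝ V] [NormedAddCommGroup U] [InnerProductSpace ℝ U] (D : Dat n Λ V U)

theorem exists_basis (i : Fin n) : ∃ (m : ℕ) (b : Fin m → Fin n → Λ),
    (∀ k, b k ∈ D.X ∧ b k i = 0) ∧ LinearIndependent ℤ b ∧
      ∀ x ∈ D.X, x i = 0 → ∃ z : Fin m → ℤ, x = ∑ k, z k • b k := by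
  let L : Submodule ℤ (Fin n → Λ) := D.X ⊓ LinearMap.ker (LinearMap.proj i : (Fin n → Λ) →ₗ[ℤ] Λ)
  let b := Module.finBasis ℤ L
  refine ⟨_, fun k => (b k : Fin n → Λ), fun k => ⟨(b k).2.1, (b k).2.2⟩, ?_, ?_⟩
  · exact b.linearIndependent.map' L.subtype (Submodule.ker_subtype L)
  · intro x hx hxi
    let x' : L := ⟨x, hx, hxi⟩
    refine ⟨fun k => b.repr x' k, ?_⟩
    have := congrArg (fun y : L => (y : Fin n → Λ)) (b.sum_repr x')
    simp only [Submodule.coe_sum, Submodule.coe_smul] at this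
    exact this.symm

theorem iota_sum {m : ℕ} (b : Fin m → Fin n → Λ) (z : Fin m → ℤ) :
    D.ι (∑ k, z k • b k) = ∑ k, (z k : ℝ) • D.ι (b k) := by
  rw [map_sum]
  refine Finset.sum_congr rfl fun k _ => ?_
  rw [map_zsmul, Int.cast_smul_eq_zsmul]

theorem norm_A (i : Fin n) (t : V) : ‖D.A i t‖ = ‖t‖ := by
  have h : ‖D.A i t‖ ^ 2 = ‖t‖ ^ 2 := by
    rw [← real_inner_self_eq_norm_sq, D.h2, D.h1, real_inner_self_eq_norm_sq]
  exact (sq_eq_sq₀ (norm_nonneg _) (norm_nonneg _)).1 h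

/-- parametrisation of the fibres -/
theorem exists_fib (i : Fin n) {m : ℕ} (b : Fin m → Fin n → Λ)
    (hb : ∀ k, b k ∈ D.X ∧ b k i = 0) (hli : LinearIndependent ℤ b)
    (hsp : ∀ x ∈ D.X, x i = 0 → ∃ z : Fin m → ℤ, x = ∑ k, z k • b k) (t : Λ)
    (xt : Fin n → Λ) (hxt : xt ∈ D.X) (hxi : xt i = t) :
    ∃ e : (Fin m → ℤ) ≃ {x : D.X // (x : Fin n → Λ) i = t},
      ∀ z, ((e z : D.X) : Fin n → Λ) = xt + ∑ k, z k • b k := by
  have hmem : ∀ z : Fin m → ℤ, ∑ k, z k • b k ∈ D.X := fun z =>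
    Submodule.sum_mem _ fun k _ => D.X.smul_mem _ (hb k).1
  have hi : ∀ z : Fin m → ℤ, (∑ k, z k • b k) i = 0 := by
    intro z
    rw [Finset.sum_apply]
    refine Finset.sum_eq_zero fun k _ => ?_
    rw [Pi.smul_apply, (hb k).2, smul_zero]
  let f : (Fin m → ℤ) → {x : D.X // (x : Fin n → Λ) i = t} := fun z =>
    ⟨⟨xt + ∑ k, z k • b k, D.X.add_mem hxt (hmem z)⟩, by
      show (xt + ∑ k, z k • b k) i = t
      rw [Pi.add_apply, hi, add_zero, hxi]⟩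
  have hf : Function.Bijective f := by
    constructor
    · intro z z' h
      have h1 : xt + ∑ k, z k • b k = xt + ∑ k, z' k • b k :=
        congrArg (fun y : {x : D.X // (x : Fin n → Λ) i = t} => ((y : D.X) : Fin n → Λ)) h
      have h2 := add_left_cancel h1
      have h3 : ∑ k, (z k - z' k) • b k = 0 := by
        simp only [sub_smul, Finset.sum_sub_distrib]
        rw [h2, sub_self]
      have h4 := (Fintype.linearIndependent_iff.1 hli) _ h3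
      funext k
      have := h4 k
      omega
    · rintro ⟨⟨x, hx⟩, hxt'⟩
      have hxt'' : x i = t := hxt'
      obtain ⟨z, hz⟩ := hsp (x - xt) (D.X.sub_mem hx hxt) (by
        rw [Pi.sub_apply, hxt'', hxi, sub_self])
      refine ⟨z, ?_⟩
      apply Subtype.ext
      apply Subtype.ext
      show xt + ∑ k, z k • b k = x
      rw [← hz]
      abel
  exact ⟨Equiv.ofBijective f hf, fun z => rfl⟩

theorem span_le (i : Fin n) {m : ℕ} (b : Fin m → Fin n → Λ)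
    (hsp : ∀ x ∈ D.X, x i = 0 → ∃ z : Fin m → ℤ, x = ∑ k, z k • b k) :
    Submodule.span ℝ (D.ι '' {x | x ∈ D.X ∧ x i = 0}) ≤
      Submodule.span ℝ (Set.range fun k => D.ι (b k)) := by
  refine Submodule.span_le.2 ?_
  rintro _ ⟨x, ⟨hx, hxi⟩, rfl⟩
  obtain ⟨z, rfl⟩ := hsp x hx hxi
  rw [iota_sum]
  exact Submodule.sum_mem _ fun k _ => Submodule.smul_mem _ _ (Submodule.subset_span ⟨k, rfl⟩)

theorem one_div_sqrt_le {s : ℝ} (hs : 0 < s) (hs1 : s ≤ 1) : 1 / Real.sqrt s ≤ 1 / s := by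
  refine one_div_le_one_div_of_le hs ?_
  rw [Real.le_sqrt' hs]
  nlinarith

theorem gauss_fib (hG : StGauss) (i : Fin n) :
    ∃ (c : ℝ → ℝ) (C A B : ℝ) (k : ℕ), 0 < B ∧ 0 ≤ A ∧
      ∀ s : ℝ, 0 < s → s ≤ 1 → 0 < c s ∧ c s ≤ C * (1 / s) ^ k ∧ ∀ t : Λ,
        Summable (fun x : {x : D.X // (x : Fin n → Λ) i = t} =>
          Real.exp (-s * ‖D.ι ((x : D.X) : Fin n → Λ)‖ ^ 2)) ∧
        |∑' x : {x : D.X // (x : Fin n → Λ) i = t},
          Real.exp (-s * ‖D.ι ((x : D.X) : Fin n → Λ)‖ ^ 2) -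
            c s * Real.exp (-s * ‖D.j t‖ ^ 2)| ≤
          A * Real.exp (-B / s) * (c s * Real.exp (-s * ‖D.j t‖ ^ 2)) := by
  obtain ⟨m, b, hb, hli, hsp⟩ := D.exists_basis i
  obtain ⟨C, A, B, hC, hA, hB, h⟩ := hG U m (fun k => D.ι (b k)) (D.h8 m b (fun k => (hb k).1) hli)
  refine ⟨fun s => C * (1 / Real.sqrt s) ^ m, C, A, B, m, hB, hA, fun s hs hs1 => ⟨?_, ?_, ?_⟩⟩
  · have := Real.sqrt_pos.2 hs
    positivity
  · have := Real.sqrt_pos.2 hs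
    exact mul_le_mul_of_nonneg_left (pow_le_pow_left₀ (by positivity) (one_div_sqrt_le hs hs1) m)
      hC.le
  · intro t
    obtain ⟨xt, hxt, hxi⟩ := D.h5 i t
    obtain ⟨e, he⟩ := D.exists_fib i b hb hli hsp t xt hxt hxi
    obtain ⟨hs1, hs2⟩ := h s hs hs1 (D.ι xt - D.A i (D.j t))
      (D.span_le i b hsp (by rw [← hxi]; exact D.h7 i xt hxt)) (D.A i (D.j t)) (by
        intro k
        rw [D.h2, D.h3 _ (hb k).1, (hb k).2, map_zero, inner_zero_right])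
    have hkey : ∀ z : Fin m → ℤ, Real.exp (-s * ‖D.ι ((e z : D.X) : Fin n → Λ)‖ ^ 2) =
        Real.exp (-s * ‖D.ι xt - D.A i (D.j t) + D.A i (D.j t) +
          ∑ k, (z k : ℝ) • D.ι (b k)‖ ^ 2) := by
      intro z
      rw [he, map_add, iota_sum, sub_add_cancel]
    rw [← e.summable_iff, ← e.tsum_eq]
    have h1 : ((fun x : {x : D.X // (x : Fin n → Λ) i = t} =>
        Real.exp (-s * ‖D.ι ((x : D.X) : Fin n → Λ)‖ ^ 2)) ∘ e) = fun z : Fin m → ℤ =>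
          Real.exp (-s * ‖D.ι xt - D.A i (D.j t) + D.A i (D.j t) +
          ∑ k, (z k : ℝ) • D.ι (b k)‖ ^ 2) := by
      funext z
      exact hkey z
    rw [h1]
    refine ⟨hs1, ?_⟩
    simp only [hkey]
    rw [D.norm_A] at hs2
    exact hs2

theorem gauss_lat (hG : StGauss) : ∃ (C : ℝ) (k : ℕ), ∀ s : ℝ, 0 < s → s ≤ 1 →
      Summable (fun t : Λ => Real.exp (-s * ‖D.j t‖ ^ 2)) ∧
        ∑' t : Λ, Real.exp (-s * ‖D.j t‖ ^ 2) ≤ C * (1 / s) ^ k := by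
  let b := Module.finBasis ℤ Λ
  obtain ⟨C, A, B, hC, hA, hB, h⟩ := hG V _ (fun k => D.j (b k)) (D.h6 _ b b.linearIndependent)
  refine ⟨(1 + A) * C, Module.finrank ℤ Λ, fun s hs hs1 => ?_⟩
  obtain ⟨hs2, hs3⟩ := h s hs hs1 0 (Submodule.zero_mem _) 0 (fun k => inner_zero_left _)
  let e : (Fin (Module.finrank ℤ Λ) → ℤ) ≃ Λ := b.equivFun.symm.toEquiv
  have he : ∀ z, D.j (e z) = 0 + 0 + ∑ k, (z k : ℝ) • D.j (b k) := by
    intro z
    show D.j (b.equivFun.symm z) = _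
    rw [Module.Basis.equivFun_symm_apply, map_sum, zero_add, zero_add]
    refine Finset.sum_congr rfl fun k _ => ?_
    rw [map_zsmul, Int.cast_smul_eq_zsmul]
  rw [← e.summable_iff, ← e.tsum_eq]
  have h1 : ((fun t : Λ => Real.exp (-s * ‖D.j t‖ ^ 2)) ∘ e) = fun z =>
      Real.exp (-s * ‖(0 : V) + 0 + ∑ k, (z k : ℝ) • D.j (b k)‖ ^ 2) := by
    funext z
    show Real.exp (-s * ‖D.j (e z)‖ ^ 2) = _
    rw [he]
  rw [h1]
  refine ⟨hs2, ?_⟩
  simp only [he]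
  have hsq := Real.sqrt_pos.2 hs
  have hE : Real.exp (-B / s) ≤ 1 := by
    rw [Real.exp_le_one_iff]
    exact div_nonpos_of_nonpos_of_nonneg (by linarith) hs.le
  have hz : Real.exp (-s * ‖(0 : V)‖ ^ 2) = 1 := by
    rw [norm_zero]
    simp
  rw [hz, mul_one] at hs3
  have h2 := (abs_le.1 hs3).2
  have h3 : (1 / Real.sqrt s) ^ (Module.finrank ℤ Λ) ≤ (1 / s) ^ (Module.finrank ℤ Λ) :=
    pow_le_pow_left₀ (by positivity) (one_div_sqrt_le hs hs1) _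
  have h4 : 0 ≤ (1 / Real.sqrt s) ^ (Module.finrank ℤ Λ) := by positivity
  have h5 : A * Real.exp (-B / s) ≤ A := by nlinarith
  calc _ ≤ C * (1 / Real.sqrt s) ^ (Module.finrank ℤ Λ) +
        A * Real.exp (-B / s) * (C * (1 / Real.sqrt s) ^ (Module.finrank ℤ Λ)) := by linarith
    _ ≤ C * (1 / Real.sqrt s) ^ (Module.finrank ℤ Λ) +
        A * (C * (1 / Real.sqrt s) ^ (Module.finrank ℤ Λ)) := by gcongr
    _ = (1 + A) * C * (1 / Real.sqrt s) ^ (Module.finrank ℤ Λ) := by ring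
    _ ≤ _ := by gcongr

theorem fin_ball (hG : StGauss) (M : ℝ) : {t : Λ | ‖D.j t‖ ≤ M}.Finite := by
  obtain ⟨C, k, h⟩ := D.gauss_lat hG
  have h1 := (h 1 one_pos le_rfl).1
  have h2 := h1.tendsto_cofinite_zero
  have h3 : ∀ᶠ t : Λ in Filter.cofinite,
      Real.exp (-1 * ‖D.j t‖ ^ 2) < Real.exp (-1 * M ^ 2) :=
    h2.eventually (gt_mem_nhds (Real.exp_pos _))
  rw [Filter.eventually_cofinite] at h3
  refine h3.subset fun t ht => ?_
  have ht' : ‖D.j t‖ ≤ M := ht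
  show ¬ _
  rw [not_lt, Real.exp_le_exp]
  nlinarith [norm_nonneg (D.j t)]

theorem contr (i : Fin n) : ∃ C : ℝ, ∀ t : Λ, ∃ x : D.X, (x : Fin n → Λ) i = t ∧
    ∀ k, k ≠ i → ‖D.j ((x : Fin n → Λ) k)‖ ≤ D.c * ‖D.j t‖ + C := by
  obtain ⟨m, b, hb, hli, hsp⟩ := D.exists_basis i
  refine ⟨∑ k, ∑ l, ‖D.P k (D.ι (b l))‖, fun t => ?_⟩
  obtain ⟨xt, hxt, hxi⟩ := D.h5 i t
  have h1 := D.span_le i b hsp (D.h7 i xt hxt)
  rw [Submodule.mem_span_range_iff_exists_fun] at h1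
  obtain ⟨r, hr⟩ := h1
  let x : Fin n → Λ := xt - ∑ k, ⌊r k⌋ • b k
  have hx : x ∈ D.X := D.X.sub_mem hxt (Submodule.sum_mem _ fun k _ => D.X.smul_mem _ (hb k).1)
  refine ⟨⟨x, hx⟩, ?_, ?_⟩
  · show xt i - (∑ k, ⌊r k⌋ • b k) i = t
    rw [Finset.sum_apply, Finset.sum_eq_zero, sub_zero, hxi]
    intro k _
    rw [Pi.smul_apply, (hb k).2, smul_zero]
  · intro k hk
    show ‖D.j (x k)‖ ≤ _
    have h2 : D.ι x = D.A i (D.j t) + ∑ l, Int.fract (r l) • D.ι (b l) := by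
      show D.ι (xt - ∑ k, ⌊r k⌋ • b k) = _
      rw [map_sub, iota_sum]
      have h3 : D.ι xt = D.A i (D.j t) + ∑ l, r l • D.ι (b l) := by
        rw [hr, hxi]
        abel
      rw [h3, add_sub_assoc, ← Finset.sum_sub_distrib]
      congr 1
      refine Finset.sum_congr rfl fun l _ => ?_
      rw [← sub_smul]
      rfl
    rw [← D.h3 x hx, h2, map_add, map_sum]
    refine (norm_add_le _ _).trans (add_le_add (D.h4 i k hk _) ?_)
    refine (norm_sum_le _ _).trans ?_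
    have h4 : ∀ l, ‖D.P k (Int.fract (r l) • D.ι (b l))‖ ≤ ‖D.P k (D.ι (b l))‖ := by
      intro l
      rw [map_smul, norm_smul, Real.norm_eq_abs, abs_of_nonneg (Int.fract_nonneg _)]
      exact mul_le_of_le_one_left (norm_nonneg _) (Int.fract_lt_one _).le
    refine (Finset.sum_le_sum fun l _ => h4 l).trans ?_
    exact Finset.single_le_sum (f := fun k => ∑ l, ‖D.P k (D.ι (b l))‖)
      (fun k _ => Finset.sum_nonneg fun l _ => norm_nonneg _) (Finset.mem_univ k)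

theorem main (hG : StGauss) (hAT : StAT) (hGr : StGrow) (hn : 0 < n) (x₀ : D.X) :
    ∃ w : D.X →₀ ℝ, (∀ x, 0 ≤ w x) ∧ 0 < w x₀ ∧
      ∀ i k, w.mapDomain (fun x : D.X => (x : Fin n → Λ) i) =
        w.mapDomain (fun x : D.X => (x : Fin n → Λ) k) := by
  choose C hC using D.contr
  obtain ⟨C', hC'0, hC'⟩ : ∃ C' : ℝ, 0 ≤ C' ∧ ∀ i, C i ≤ C' := by
    refine ⟨∑ i, |C i|, Finset.sum_nonneg fun i _ => abs_nonneg _, fun i =>
      (le_abs_self _).trans ?_⟩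
    exact Finset.single_le_sum (f := fun i => |C i|) (fun i _ => abs_nonneg _) (Finset.mem_univ i)
  have hcon : ∀ i (t : Λ), ∃ x : D.X, (x : Fin n → Λ) i = t ∧
      ∀ k, k ≠ i → ‖D.j ((x : Fin n → Λ) k)‖ ≤ D.c * ‖D.j t‖ + C' := by
    intro i t
    obtain ⟨x, hx1, hx2⟩ := hC i t
    exact ⟨x, hx1, fun k hk => (hx2 k hk).trans (add_le_add le_rfl (hC' i))⟩
  refine stDual n Λ D.X (fun i x => (x : Fin n → Λ) i) (fun t => ‖D.j t‖) hn (D.fin_ball hG)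
    ⟨C' / (1 - D.c), fun i t ht => ?_⟩ ?_ x₀
  · obtain ⟨x, hx1, hx2⟩ := hcon i t
    refine ⟨x, hx1, fun k hk => (hx2 k hk).trans_lt ?_⟩
    have h1 : 0 < 1 - D.c := sub_pos.2 D.hc1
    have ht' : C' / (1 - D.c) < ‖D.j t‖ := ht
    rw [div_lt_iff₀ h1] at ht'
    show D.c * ‖D.j t‖ + C' < ‖D.j t‖
    linarith
  · intro f hf1 hf2
    have hgrow := hGr n Λ D.X (fun i x => (x : Fin n → Λ) i) (fun t => ‖D.j t‖)
      (fun t => norm_nonneg _) (D.fin_ball hG) ⟨D.c, C', D.hc0, D.hc1, hcon⟩ f hf1 hf2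
    refine hAT n Λ D.X (fun i x => (x : Fin n → Λ) i) (fun x => ‖D.ι (x : Fin n → Λ)‖ ^ 2)
      (fun t => ‖D.j t‖ ^ 2) (fun t => sq_nonneg _) (fun i => D.gauss_fib hG i)
      (D.gauss_lat hG) f hf1 hf2 ?_
    intro δ hδ
    obtain ⟨A, hA⟩ := hgrow δ hδ
    refine ⟨A, fun i t => ?_⟩
    rw [Real.sqrt_sq (norm_nonneg _)]
    exact hA i t

end Dat

end Pool.Agent.Y794.Sm
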