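import Pool.Agent.Y794.Sm.Stmts

set_option autoImplicit false

open Finset

namespace Pool.Agent.Y794.Sm

section order_unit

variable {E : Type} [AddCommGroup E] [Module ℝ E]

theorem order_unit (s : PointedCone ℝ E) (u : E) (hu : ∀ y, ∃ c : ℝ, c • u + y ∈ s)
    (hneg : -u ∉ s) : ∃ g : E →ₗ[ℝ] ℝ, g u = 1 ∧ ∀ x ∈ s, 0 ≤ g x := by
  have hu0 : u ≠ 0 := by
    rintro rfl
    apply hneg
    rw [neg_zero]
    exact s.zero_mem
  let f : E →ₗ.[ℝ] ℝ := LinearPMap.mkSpanSingleton u (1 : ℝ) hu0
  have hf : ∀ (c : ℝ) (h : c • u ∈ f.domain), f ⟨c • u, h⟩ = c := by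
    intro c h
    have := LinearPMap.mkSpanSingleton'_apply u (1 : ℝ)
      (fun c hc => by
        have := smul_eq_zero.1 hc
        rcases this with h | h
        · simp [h]
        · exact absurd h hu0) c h
    exact this.trans (by rw [RingHom.id_apply, smul_eq_mul, mul_one])
  obtain ⟨g, hg1, hg2⟩ := riesz_extension s f (by
    rintro ⟨x, hx⟩ hxs
    have hx' : x ∈ Submodule.span ℝ {u} := hx
    obtain ⟨c, rfl⟩ := Submodule.mem_span_singleton.1 hx'
    rw [hf]
    by_contra hc
    push Not at hc
    apply hneg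
    have h0 : 0 ≤ (-c)⁻¹ := by
      rw [inv_nonneg]
      linarith
    have h1 : (-c)⁻¹ • (c • u) ∈ s := s.smul_mem h0 hxs
    have h2 : (-c)⁻¹ • (c • u) = -u := by
      rw [smul_smul]
      have : (-c)⁻¹ * c = -1 := by
        rw [inv_neg, neg_mul, inv_mul_cancel₀ hc.ne]
      rw [this, neg_one_smul]
    rw [h2] at h1
    exact h1) (by
    intro y
    obtain ⟨c, hc⟩ := hu y
    exact ⟨⟨c • u, Submodule.mem_span_singleton.2 ⟨c, rfl⟩⟩, hc⟩)
  refine ⟨g, ?_, hg2⟩
  have h1 : u ∈ f.domain := Submodule.mem_span_singleton_self u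
  have h2 := hg1 ⟨u, h1⟩
  have h3 := hf 1 (by rw [one_smul]; exact h1)
  simp only [one_smul] at h3
  rw [h2, h3]

end order_unit

section push

variable {n : ℕ} {T X : Type} (p : Fin n → X → T)

/-- the `i`-th marginal -/
noncomputable def marg (i : Fin n) : (X →₀ ℝ) →ₗ[ℝ] (T →₀ ℝ) := Finsupp.lmapDomain ℝ ℝ (p i)

theorem marg_single (i : Fin n) (x : X) (c : ℝ) :
    marg p i (Finsupp.single x c) = Finsupp.single (p i x) c := by
  unfold marg
  rw [Finsupp.lmapDomain_apply, Finsupp.mapDomain_single]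

theorem marg_eq (i : Fin n) (w : X →₀ ℝ) : marg p i w = w.mapDomain (p i) := rfl

theorem push_aux (N : T → ℝ) (R : ℝ)
    (hR : ∀ i t, R < N t → ∃ x, p i x = t ∧ ∀ j, j ≠ i → N (p j x) < N t) :
    ∀ (k : ℕ) (S : Finset T), S.card = k → (∀ t ∈ S, R < N t) →
      (∀ t ∈ S, ∀ t', R < N t' → N t' < N t → t' ∈ S) →
      ∀ v : X →₀ ℝ, (∀ t, t ∉ S → R < N t → ∀ i j, marg p i v t = marg p j v t) →
      ∃ w : X →₀ ℝ, (∀ x, 0 ≤ w x) ∧
        ∀ t, R < N t → ∀ i j, marg p i (v + w) t = marg p j (v + w) t := by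
  classical
  intro k
  induction k with
  | zero =>
    intro S hS _ _ v hv
    refine ⟨0, fun x => le_rfl, fun t ht i j => ?_⟩
    rw [add_zero]
    refine hv t ?_ ht i j
    rw [Finset.card_eq_zero] at hS
    rw [hS]
    exact Finset.notMem_empty t
  | succ k ih =>
    intro S hS hSR hSd v hv
    have hne : S.Nonempty := by
      rw [← Finset.card_pos, hS]
      exact Nat.succ_pos k
    obtain ⟨t0, ht0, hmax⟩ := S.exists_max_image N hne
    choose x hx1 hx2 using fun i => hR i t0 (hSR t0 ht0)
    let Kc : ℝ := ∑ j, |marg p j v t0|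
    have hK : ∀ i, marg p i v t0 ≤ Kc := fun i =>
      (le_abs_self _).trans (Finset.single_le_sum (f := fun j => |marg p j v t0|)
        (fun j _ => abs_nonneg _) (Finset.mem_univ i))
    let w0 : X →₀ ℝ := ∑ i, Finsupp.single (x i) (Kc - marg p i v t0)
    have hw0 : ∀ y, 0 ≤ w0 y := by
      intro y
      rw [Finsupp.finsetSum_apply]
      refine Finset.sum_nonneg fun i _ => ?_
      rw [Finsupp.single_apply]
      split_ifs
      · linarith [hK i]
      · exact le_rfl
    have hmw : ∀ j t, marg p j w0 t =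
        ∑ i, if p j (x i) = t then Kc - marg p i v t0 else 0 := by
      intro j t
      rw [map_sum, Finsupp.finsetSum_apply]
      refine Finset.sum_congr rfl fun i _ => ?_
      rw [marg_single, Finsupp.single_apply]
    have hne' : ∀ i j, j ≠ i → p j (x i) ≠ t0 := fun i j hij h => by
      have := hx2 i j hij
      rw [h] at this
      exact lt_irrefl _ this
    obtain ⟨w1, hw1, hw1'⟩ := ih (S.erase t0)
      (by rw [Finset.card_erase_of_mem ht0, hS]; rfl)
      (fun t ht => hSR t (Finset.mem_of_mem_erase ht))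
      (fun t ht t' h1 h2 => by
        have ht' := Finset.mem_of_mem_erase ht
        refine Finset.mem_erase.2 ⟨?_, hSd t ht' t' h1 h2⟩
        rintro rfl
        exact absurd (hmax t ht') (not_le.2 h2))
      (v + w0) (by
        intro t ht hRt i j
        by_cases htt : t = t0
        · subst htt
          have h1 : ∀ j, marg p j (v + w0) t = Kc := by
            intro j
            rw [map_add, Finsupp.add_apply, hmw, Finset.sum_eq_single j]
            · rw [if_pos (hx1 j)]
              ring
            · intro i _ hij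
              rw [if_neg (hne' i j (Ne.symm hij))]
            · intro h
              exact absurd (Finset.mem_univ j) h
          rw [h1, h1]
        · have hts : t ∉ S := fun h => ht (Finset.mem_erase.2 ⟨htt, h⟩)
          have h1 : ∀ j, marg p j (v + w0) t = marg p j v t := by
            intro j
            rw [map_add, Finsupp.add_apply, hmw, Finset.sum_eq_zero, add_zero]
            intro i _
            rw [if_neg]
            intro h
            by_cases hij : j = i
            · subst hij
              rw [hx1 j] at h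
              exact htt h.symm
            · have h2 := hx2 i j hij
              rw [h] at h2
              exact hts (hSd t0 ht0 t hRt h2)
          rw [h1, h1]
          exact hv t hts hRt i j)
    refine ⟨w0 + w1, fun y => ?_, fun t ht i j => ?_⟩
    · rw [Finsupp.add_apply]
      exact add_nonneg (hw0 y) (hw1 y)
    · rw [← add_assoc]
      exact hw1' t ht i j

theorem push (N : T → ℝ) (R : ℝ) (hN : ∀ M : ℝ, {t | N t ≤ M}.Finite)
    (hR : ∀ i t, R < N t → ∃ x, p i x = t ∧ ∀ j, j ≠ i → N (p j x) < N t) (v : X →₀ ℝ) :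
    ∃ w : X →₀ ℝ, (∀ x, 0 ≤ w x) ∧
      ∀ t, R < N t → ∀ i j, marg p i (v + w) t = marg p j (v + w) t := by
  classical
  let U : Finset T := Finset.univ.biUnion fun i => (marg p i v).support
  obtain ⟨ρ, hρ⟩ : ∃ ρ : ℝ, ∀ t ∈ U, N t ≤ ρ := by
    refine ⟨∑ t ∈ U, |N t|, fun t ht => (le_abs_self _).trans ?_⟩
    exact Finset.single_le_sum (f := fun t => |N t|) (fun t _ => abs_nonneg _) ht
  let S : Finset T := (hN ρ).toFinset.filter fun t => R < N t
  have hS : ∀ t, t ∈ S ↔ N t ≤ ρ ∧ R < N t := fun t => by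
    rw [Finset.mem_filter, Set.Finite.mem_toFinset]
    rfl
  refine push_aux p N R hR S.card S rfl (fun t ht => ((hS t).1 ht).2) ?_ v ?_
  · intro t ht t' h1 h2
    exact (hS t').2 ⟨h2.le.trans ((hS t).1 ht).1, h1⟩
  · intro t ht hRt i j
    have h1 : ∀ i, marg p i v t = 0 := by
      intro i
      by_contra h
      apply ht
      refine (hS t).2 ⟨hρ t ?_, hRt⟩
      exact Finset.mem_biUnion.2 ⟨i, Finset.mem_univ i, Finsupp.mem_support_iff.2 h⟩
    rw [h1, h1]

end push

section dual

variable {n : ℕ} {T X : Type} (p : Fin n → X → T)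

/-- differences of marginals -/
noncomputable def Phi (i₀ : Fin n) : (X →₀ ℝ) →ₗ[ℝ] (Fin n → T →₀ ℝ) :=
  LinearMap.pi fun i => marg p i - marg p i₀

theorem Phi_apply (i₀ i : Fin n) (v : X →₀ ℝ) :
    Phi p i₀ v i = marg p i v - marg p i₀ v := rfl

/-- the cone of elements equivalent to nonnegative ones -/
noncomputable def cone (i₀ : Fin n) : PointedCone ℝ (X →₀ ℝ) where
  carrier := {v | ∃ w : X →₀ ℝ, (∀ x, 0 ≤ w x) ∧ Phi p i₀ v = Phi p i₀ w}
  add_mem' := by
    rintro a b ⟨w, hw, hw'⟩ ⟨w', hw1, hw1'⟩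
    exact ⟨w + w', fun x => add_nonneg (hw x) (hw1 x), by rw [map_add, map_add, hw', hw1']⟩
  zero_mem' := ⟨0, fun x => le_rfl, rfl⟩
  smul_mem' := by
    rintro ⟨c, hc⟩ a ⟨w, hw, hw'⟩
    refine ⟨c • w, fun x => mul_nonneg hc (hw x), ?_⟩
    show Phi p i₀ (c • a) = _
    rw [map_smul, map_smul, hw']

theorem mem_cone (i₀ : Fin n) (v : X →₀ ℝ) :
    v ∈ cone p i₀ ↔ ∃ w : X →₀ ℝ, (∀ x, 0 ≤ w x) ∧ Phi p i₀ v = Phi p i₀ w := Iff.rfl

theorem fin_gens (i₀ : Fin n) (N : T → ℝ) (R : ℝ) (hN : ∀ M : ℝ, {t | N t ≤ M}.Finite) :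
    ∃ (r : ℕ) (v : Fin r → X →₀ ℝ), ∀ y : X →₀ ℝ,
      (∀ t, R < N t → ∀ i j, marg p i y t = marg p j y t) →
      ∃ c : Fin r → ℝ, Phi p i₀ y = ∑ k, c k • Phi p i₀ (v k) := by
  classical
  let N0 : Submodule ℝ (X →₀ ℝ) :=
    { carrier := {y | ∀ t, R < N t → ∀ i j, marg p i y t = marg p j y t}
      add_mem' := by
        intro a b ha hb t ht i j
        rw [map_add, map_add, Finsupp.add_apply, Finsupp.add_apply, ha t ht i j, hb t ht i j]
      zero_mem' := by
        intro t ht i j
        rw [map_zero, map_zero]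
      smul_mem' := by
        intro c a ha t ht i j
        rw [map_smul, map_smul, Finsupp.smul_apply, Finsupp.smul_apply, ha t ht i j] }
  let G : Submodule ℝ (Fin n → T →₀ ℝ) := N0.map (Phi p i₀)
  have hG : ∀ g ∈ G, ∀ i t, R < N t → g i t = 0 := by
    rintro _ ⟨y, hy, rfl⟩ i t ht
    rw [Phi_apply, Finsupp.sub_apply, hy t ht i i₀, sub_self]
  have hfin : Finite {t // N t ≤ R} := (hN R).to_subtype
  let res : G →ₗ[ℝ] (Fin n → {t // N t ≤ R} → ℝ) :=
    { toFun := fun g i t => (g : Fin n → T →₀ ℝ) i t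
      map_add' := fun a b => rfl
      map_smul' := fun c a => rfl }
  have hinj : Function.Injective res := by
    intro a b hab
    apply Subtype.ext
    funext i
    ext t
    by_cases ht : N t ≤ R
    · exact congrFun (congrFun hab i) ⟨t, ht⟩
    · rw [hG a a.2 i t (not_le.1 ht), hG b b.2 i t (not_le.1 ht)]
  have hfd : Module.Finite ℝ G := Module.Finite.of_injective res hinj
  have hfree : Module.Free ℝ G := Module.Free.of_divisionRing ℝ G
  let b := Module.finBasis ℝ G
  choose v hv1 hv2 using fun k => (b k).2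
  refine ⟨_, v, fun y hy => ?_⟩
  have hyG : Phi p i₀ y ∈ G := ⟨y, hy, rfl⟩
  refine ⟨fun k => b.repr ⟨Phi p i₀ y, hyG⟩ k, ?_⟩
  have h1 := b.sum_repr ⟨Phi p i₀ y, hyG⟩
  have h2 := congrArg (fun g : G => (g : Fin n → T →₀ ℝ)) h1
  simp only [Submodule.coe_sum, Submodule.coe_smul] at h2
  refine h2.symm.trans (Finset.sum_congr rfl fun k _ => ?_)
  rw [hv2]

end dual

theorem stDual : StDual := by
  classical
  intro n T X p N hn hN ⟨R, hR⟩ hf x₀
  let i₀ : Fin n := ⟨0, hn⟩
  obtain ⟨r, v, hv⟩ := fin_gens p i₀ N R hN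
  let av : Fin r → X →₀ ℝ := fun k => (v k).mapRange (fun t => |t|) abs_zero
  have hav : ∀ k x, av k x = |v k x| := fun k x => Finsupp.mapRange_apply ..
  let u : X →₀ ℝ := Finsupp.single x₀ 1 + ∑ k, av k
  have hu0 : ∀ x, 0 ≤ u x := by
    intro x
    rw [Finsupp.add_apply, Finsupp.finsetSum_apply]
    refine add_nonneg ?_ (Finset.sum_nonneg fun k _ => by rw [hav]; exact abs_nonneg _)
    rw [Finsupp.single_apply]
    split_ifs
    · exact zero_le_one
    · exact le_rfl
  have hux : 1 ≤ u x₀ := by
    rw [Finsupp.add_apply, Finsupp.finsetSum_apply, Finsupp.single_eq_same]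
    have : 0 ≤ ∑ k, av k x₀ := Finset.sum_nonneg fun k _ => by rw [hav]; exact abs_nonneg _
    linarith
  have huv : ∀ k x, |v k x| ≤ u x := by
    intro k x
    rw [Finsupp.add_apply, Finsupp.finsetSum_apply]
    have h1 : 0 ≤ (Finsupp.single x₀ (1 : ℝ)) x := by
      rw [Finsupp.single_apply]
      split_ifs
      · exact zero_le_one
      · exact le_rfl
    have h2 : av k x ≤ ∑ k, av k x := Finset.single_le_sum (f := fun k => av k x)
      (fun k _ => by rw [hav]; exact abs_nonneg _) (Finset.mem_univ k)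
    rw [hav] at h2
    linarith
  by_cases hneg : -u ∈ cone p i₀
  · obtain ⟨w, hw, hw'⟩ := hneg
    refine ⟨w + u, fun x => add_nonneg (hw x) (hu0 x), ?_, fun i j => ?_⟩
    · have := hw x₀
      rw [Finsupp.add_apply]
      linarith
    · have h0 : Phi p i₀ (w + u) = 0 := by
        rw [map_add, ← hw', map_neg, neg_add_cancel]
      have h1 : ∀ i, marg p i (w + u) = marg p i₀ (w + u) := by
        intro i
        have := congrFun h0 i
        rw [Phi_apply] at this
        exact sub_eq_zero.1 this
      rw [← marg_eq, ← marg_eq, h1 i, h1 j]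
  · exfalso
    obtain ⟨g, hg1, hg2⟩ := order_unit (cone p i₀) u (by
      intro y
      obtain ⟨w, hw, hw'⟩ := push p N R hN hR (-y)
      obtain ⟨c, hc⟩ := hv (-y + w) hw'
      let C : ℝ := ∑ k, |c k|
      refine ⟨C, (C • u + w - ∑ k, c k • v k), fun x => ?_, ?_⟩
      · rw [Finsupp.sub_apply, Finsupp.add_apply, Finsupp.smul_apply, Finsupp.finsetSum_apply,
          smul_eq_mul]
        have h1 : ∑ k, (c k • v k) x ≤ C * u x := by
          rw [Finset.sum_mul]
          refine Finset.sum_le_sum fun k _ => ?_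
          rw [Finsupp.smul_apply, smul_eq_mul]
          calc c k * v k x ≤ |c k * v k x| := le_abs_self _
            _ = |c k| * |v k x| := abs_mul _ _
            _ ≤ |c k| * u x := mul_le_mul_of_nonneg_left (huv k x) (abs_nonneg _)
        have := hw x
        linarith
      · have h2 : Phi p i₀ w - Phi p i₀ y = ∑ k, c k • Phi p i₀ (v k) := by
          rw [← hc, map_add, map_neg]
          abel
        rw [map_sub, map_add, map_add, map_sum]
        simp only [map_smul]
        rw [← h2]
        abel) hneg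
    have hker : ∀ y, Phi p i₀ y = 0 → g y = 0 := by
      intro y hy
      have h1 : y ∈ cone p i₀ := ⟨0, fun x => le_rfl, by rw [hy, map_zero]⟩
      have h2 : -y ∈ cone p i₀ := ⟨0, fun x => le_rfl, by rw [map_neg, hy, neg_zero, map_zero]⟩
      have h3 := hg2 y h1
      have h4 := hg2 _ h2
      rw [map_neg] at h4
      linarith
    have hrange : g ∈ LinearMap.range (Phi p i₀).dualMap := by
      rw [LinearMap.range_dualMap_eq_dualAnnihilator_ker]
      rw [Submodule.mem_dualAnnihilator]
      intro y hy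
      exact hker y hy
    obtain ⟨h, hh⟩ := hrange
    have hgx : ∀ y, g y = h (Phi p i₀ y) := by
      intro y
      rw [← hh]
      rfl
    let H : Fin n → T → ℝ := fun i t => h (Pi.single i (Finsupp.single t 1))
    have hgs : ∀ x, g (Finsupp.single x 1) = ∑ i, H i (p i x) - ∑ i, H i (p i₀ x) := by
      intro x
      rw [hgx]
      have h1 : Phi p i₀ (Finsupp.single x 1) =
          ∑ i, (Pi.single i (Finsupp.single (p i x) (1 : ℝ)) : Fin n → T →₀ ℝ) -
            ∑ i, (Pi.single i (Finsupp.single (p i₀ x) (1 : ℝ)) : Fin n → T →₀ ℝ) := by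
        funext i
        rw [Phi_apply, marg_single, marg_single, Pi.sub_apply, Finset.sum_apply,
          Finset.sum_apply]
        congr 1
        · rw [Finset.sum_eq_single i]
          · rw [Pi.single_eq_same]
          · intro j _ hj
            rw [Pi.single_eq_of_ne (Ne.symm hj)]
          · intro hi
            exact absurd (Finset.mem_univ i) hi
        · rw [Finset.sum_eq_single i]
          · rw [Pi.single_eq_same]
          · intro j _ hj
            rw [Pi.single_eq_of_ne (Ne.symm hj)]
          · intro hi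
            exact absurd (Finset.mem_univ i) hi
      rw [h1, map_sub, map_sum, map_sum]
    let f : Fin n → T → ℝ := fun i t => H i t - if i = i₀ then ∑ j, H j t else 0
    have hsum : ∀ x, ∑ i, f i (p i x) = g (Finsupp.single x 1) := by
      intro x
      rw [hgs, Finset.sum_sub_distrib]
      congr 1
      rw [Finset.sum_eq_single i₀]
      · rw [if_pos rfl]
      · intro j _ hj
        rw [if_neg hj]
      · intro hi
        exact absurd (Finset.mem_univ i₀) hi
    have hzero := hf f (by
      intro t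
      rw [Finset.sum_sub_distrib, Finset.sum_ite_eq' Finset.univ i₀, if_pos (Finset.mem_univ i₀),
        sub_self]) (by
      intro x
      rw [hsum]
      refine hg2 _ ⟨Finsupp.single x 1, fun y => ?_, rfl⟩
      rw [Finsupp.single_apply]
      split_ifs
      · exact zero_le_one
      · exact le_rfl)
    have hg0 : g = 0 := by
      apply Finsupp.lhom_ext
      intro x c
      have h1 : Finsupp.single x c = c • Finsupp.single x (1 : ℝ) := by
        rw [Finsupp.smul_single, smul_eq_mul, mul_one]
      rw [h1, map_smul, ← hsum, hzero, smul_zero]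
      rfl
    rw [hg0] at hg1
    exact zero_ne_one hg1

end Pool.Agent.Y794.Sm
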