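import Pool.Agent.Y794.Sm.Abs

set_option autoImplicit false
set_option linter.unusedSectionVars false

open Finset NumberField Module
open scoped NumberField ComplexConjugate

namespace Pool.Agent.Y794.Sm

variable (K : Type) [Field K] [NumberField K]

/-- The complex Hilbert space of the infinite places. -/
abbrev VK := EuclideanSpace ℂ (InfinitePlace K)

/-- The embedding. -/
noncomputable def jK : 𝓞 K →+ VK K where
  toFun x := WithLp.toLp 2 fun w => w.embedding (x : K)
  map_zero' := by
    ext w
    simp
  map_add' x y := by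
    ext w
    simp

theorem jK_apply (x : 𝓞 K) (w : InfinitePlace K) : jK K x w = w.embedding (x : K) := rfl

open Classical in
/-- The mixed space in `VK`. -/
noncomputable def TK : mixedEmbedding.mixedSpace K →ₗ[ℝ] VK K where
  toFun m := WithLp.toLp 2 fun w => if h : w.IsReal then (m.1 ⟨w, h⟩ : ℂ) else
    m.2 ⟨w, InfinitePlace.not_isReal_iff_isComplex.1 h⟩
  map_add' x y := by
    ext w
    by_cases h : w.IsReal
    · simp [h]
    · simp [h]
  map_smul' c x := by
    ext w
    by_cases h : w.IsReal
    · simp [h]
    · simp [h]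

theorem TK_real (m : mixedEmbedding.mixedSpace K) (w : InfinitePlace K) (h : w.IsReal) :
    TK K m w = (m.1 ⟨w, h⟩ : ℂ) := dif_pos h

theorem TK_complex (m : mixedEmbedding.mixedSpace K) (w : InfinitePlace K) (h : w.IsComplex) :
    TK K m w = m.2 ⟨w, h⟩ := dif_neg (InfinitePlace.not_isReal_iff_isComplex.2 h)

theorem TK_mixed (x : 𝓞 K) : TK K (mixedEmbedding K (x : K)) = jK K x := by
  ext w
  rw [jK_apply]
  by_cases h : w.IsReal
  · rw [TK_real K _ w h, mixedEmbedding.mixedEmbedding_apply_isReal,
      InfinitePlace.embedding_of_isReal_apply]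
  · have h' := InfinitePlace.not_isReal_iff_isComplex.1 h
    rw [TK_complex K _ w h', mixedEmbedding.mixedEmbedding_apply_isComplex]

theorem TK_inj : Function.Injective (TK K) := by
  intro m m' h
  have h1 : ∀ w, TK K m w = TK K m' w := fun w => by rw [h]
  refine Prod.ext (funext fun w => ?_) (funext fun w => ?_)
  · have := h1 w.1
    rw [TK_real K _ w.1 w.2, TK_real K _ w.1 w.2] at this
    exact Complex.ofReal_injective this
  · have := h1 w.1
    rw [TK_complex K _ w.1 w.2, TK_complex K _ w.1 w.2] at this
    exact this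

theorem TK_basis (i : Free.ChooseBasisIndex ℤ (𝓞 K)) :
    TK K (mixedEmbedding.latticeBasis K i) = jK K (RingOfIntegers.basis K i) := by
  rw [mixedEmbedding.latticeBasis_apply, integralBasis_apply, TK_mixed]

theorem mem_span_of_real (t : VK K) (ht : ∀ w : InfinitePlace K, w.IsReal → (t w).im = 0) :
    t ∈ Submodule.span ℝ (Set.range (jK K)) := by
  let m : mixedEmbedding.mixedSpace K := (fun w => (t w.1).re, fun w => t w.1)
  have hm : TK K m = t := by
    ext w
    by_cases h : w.IsReal
    · rw [TK_real K _ w h]
      apply Complex.ext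
      · simp [m]
      · simp [ht w h]
    · have h' := InfinitePlace.not_isReal_iff_isComplex.1 h
      rw [TK_complex K _ w h']
  rw [← hm, ← (mixedEmbedding.latticeBasis K).sum_repr m, map_sum]
  refine Submodule.sum_mem _ fun i _ => ?_
  rw [map_smul, TK_basis]
  exact Submodule.smul_mem _ _ (Submodule.subset_span ⟨_, rfl⟩)

/-- a family of tuples of integers of `K` which is independent over `ℤ` stays independent. -/
theorem indep_tuple {κ : Type} [Finite κ] (m : ℕ) (b : Fin m → κ → 𝓞 K) (hb : LinearIndependent ℤ b) :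
    LinearIndependent ℝ (fun k => fun x => jK K (b k x)) := by
  classical
  have : Fintype κ := Fintype.ofFinite κ
  let β := RingOfIntegers.basis K
  -- coordinates
  let B : Fin m → (κ × Free.ChooseBasisIndex ℤ (𝓞 K)) → ℤ := fun k x => β.repr (b k x.1) x.2
  have hB : LinearIndependent ℤ B := by
    rw [Fintype.linearIndependent_iff] at hb ⊢
    intro g hg
    apply hb
    funext x
    apply β.repr.injective
    ext l
    have := congrFun hg (x, l)
    rw [Finset.sum_apply] at this
    rw [Finset.sum_apply, map_sum, Finsupp.finsetSum_apply, Pi.zero_apply, map_zero,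
      Finsupp.zero_apply]
    refine Eq.trans (Finset.sum_congr rfl fun k _ => ?_) this
    rw [Pi.smul_apply, map_smul]
    rfl
  have hB' := (linearIndependent_algebraMap_comp_iff (S := ℝ)).2 hB
  have hj : LinearIndependent ℝ (fun l => jK K (β l)) := by
    have h1 := (mixedEmbedding.latticeBasis K).linearIndependent.map' (TK K)
      (LinearMap.ker_eq_bot.2 (TK_inj K))
    have h2 : (TK K ∘ mixedEmbedding.latticeBasis K) = fun l => jK K (β l) :=
      funext fun l => TK_basis K l
    rwa [h2] at h1
  rw [Fintype.linearIndependent_iff] at hB' hj ⊢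
  intro c hc
  apply hB'
  funext x
  obtain ⟨x, l⟩ := x
  have h1 := congrFun hc x
  rw [Finset.sum_apply] at h1
  have h2 : ∀ k, jK K (b k x) = ∑ l, ((β.repr (b k x) l : ℤ) : ℝ) • jK K (β l) := by
    intro k
    conv_lhs => rw [← β.sum_repr (b k x)]
    rw [map_sum]
    refine Finset.sum_congr rfl fun l _ => ?_
    rw [map_zsmul, Int.cast_smul_eq_zsmul]
  have h3 : ∑ l, (∑ k, c k * ((β.repr (b k x) l : ℤ) : ℝ)) • jK K (β l) = 0 := by
    rw [Pi.zero_apply] at h1
    rw [← h1]
    simp only [Pi.smul_apply, h2, Finset.smul_sum, Finset.sum_smul, mul_smul]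
    rw [Finset.sum_comm]
  have h4 := hj _ h3 l
  rw [Finset.sum_apply, Pi.zero_apply]
  rw [← h4]
  refine Finset.sum_congr rfl fun k _ => ?_
  rfl

theorem indep_one (m : ℕ) (b : Fin m → 𝓞 K) (hb : LinearIndependent ℤ b) :
    LinearIndependent ℝ (fun k => jK K (b k)) := by
  have h1 : LinearIndependent ℤ (fun k => fun _ : Unit => b k) := by
    rw [Fintype.linearIndependent_iff] at hb ⊢
    intro g hg
    apply hb
    have := congrFun hg ()
    simpa using this
  have h2 := indep_tuple K m _ h1
  rw [Fintype.linearIndependent_iff] at h2 ⊢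
  intro g hg
  apply h2
  funext x
  rw [Finset.sum_apply]
  exact hg

end Pool.Agent.Y794.Sm
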