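import Pool.Agent.Y794.Sm.Geo1

set_option autoImplicit false
set_option linter.unusedSectionVars false

open Finset NumberField Module
open scoped NumberField ComplexConjugate

namespace Pool.Agent.Y794.Sm

variable (K : Type) [Field K] [NumberField K]

/-- The big Hilbert space. -/
abbrev UK (N : ℕ) := EuclideanSpace ℂ (InfinitePlace K × Fin N)

variable {K} {N : ℕ}

/-- The projections. -/
noncomputable def PC (u : InfinitePlace K → Fin (N + 1) → Fin N → ℝ)
    (ε : Fin (N + 1) → InfinitePlace K → ℂ) (i : Fin (N + 1)) : UK K N →ₗ[ℂ] VK K where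
  toFun z := WithLp.toLp 2 fun w => ε i w * ∑ k, (u w i k : ℂ) * z (w, k)
  map_add' x y := by
    ext w
    simp [mul_add, Finset.sum_add_distrib]
  map_smul' c x := by
    ext w
    simp only [PiLp.smul_apply, smul_eq_mul, RingHom.id_apply]
    have : ∀ k, (u w i k : ℂ) * (c * x (w, k)) = c * ((u w i k : ℂ) * x (w, k)) := by
      intro k
      ring
    simp only [this, ← Finset.mul_sum]
    ring

/-- Their adjoints. -/
noncomputable def AC (u : InfinitePlace K → Fin (N + 1) → Fin N → ℝ)
    (ε : Fin (N + 1) → InfinitePlace K → ℂ) (i : Fin (N + 1)) : VK K →ₗ[ℂ] UK K N where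
  toFun t := WithLp.toLp 2 fun x => conj (ε i x.1) * (u x.1 i x.2 : ℂ) * t x.1
  map_add' x y := by
    ext w
    simp [mul_add]
  map_smul' c x := by
    ext w
    simp only [PiLp.smul_apply, smul_eq_mul, RingHom.id_apply]
    ring

theorem PC_apply (u : InfinitePlace K → Fin (N + 1) → Fin N → ℝ)
    (ε : Fin (N + 1) → InfinitePlace K → ℂ) (i : Fin (N + 1)) (z : UK K N) (w : InfinitePlace K) :
    PC u ε i z w = ε i w * ∑ k, (u w i k : ℂ) * z (w, k) := rfl

theorem AC_apply (u : InfinitePlace K → Fin (N + 1) → Fin N → ℝ)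
    (ε : Fin (N + 1) → InfinitePlace K → ℂ) (i : Fin (N + 1)) (t : VK K) (x : InfinitePlace K × Fin N) :
    AC u ε i t x = conj (ε i x.1) * (u x.1 i x.2 : ℂ) * t x.1 := rfl

theorem PC_AC (u : InfinitePlace K → Fin (N + 1) → Fin N → ℝ)
    (ε : Fin (N + 1) → InfinitePlace K → ℂ) (i k : Fin (N + 1)) (t : VK K) (w : InfinitePlace K) :
    PC u ε k (AC u ε i t) w = ε k w * conj (ε i w) * ((∑ l, u w k l * u w i l : ℝ) : ℂ) * t w := by
  rw [PC_apply]
  simp only [AC_apply]
  rw [Complex.ofReal_sum, Finset.mul_sum, Finset.mul_sum, Finset.sum_mul]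
  refine Finset.sum_congr rfl fun l _ => ?_
  rw [Complex.ofReal_mul]
  ring

theorem inner_AC (u : InfinitePlace K → Fin (N + 1) → Fin N → ℝ)
    (ε : Fin (N + 1) → InfinitePlace K → ℂ) (i : Fin (N + 1)) (t : VK K) (z : UK K N) :
    inner ℝ (AC u ε i t) z = inner ℝ t (PC u ε i z) := by
  rw [PiLp.inner_apply, PiLp.inner_apply, Fintype.sum_prod_type]
  refine Finset.sum_congr rfl fun w _ => ?_
  simp only [Complex.inner]
  rw [← Complex.re_sum]
  congr 1
  rw [PC_apply]
  simp only [AC_apply, map_mul, Complex.conj_conj, Complex.conj_ofReal]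
  rw [Finset.mul_sum, Finset.sum_mul]
  refine Finset.sum_congr rfl fun k _ => ?_
  ring

theorem norm_PC_AC (u : InfinitePlace K → Fin (N + 1) → Fin N → ℝ)
    (ε : Fin (N + 1) → InfinitePlace K → ℂ) (hε : ∀ i w, ‖ε i w‖ = 1) (c : ℝ) (hc : 0 ≤ c)
    (i k : Fin (N + 1)) (hu : ∀ w, |∑ l, u w k l * u w i l| ≤ c) (t : VK K) :
    ‖PC u ε k (AC u ε i t)‖ ≤ c * ‖t‖ := by
  rw [EuclideanSpace.norm_eq, EuclideanSpace.norm_eq]
  rw [← Real.sqrt_sq hc, ← Real.sqrt_mul (sq_nonneg c)]
  apply Real.sqrt_le_sqrt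
  rw [Finset.mul_sum]
  refine Finset.sum_le_sum fun w _ => ?_
  rw [PC_AC, norm_mul, norm_mul, norm_mul, RCLike.norm_conj, hε, hε, one_mul, one_mul,
    Complex.norm_real, mul_pow]
  exact mul_le_mul_of_nonneg_right (pow_le_pow_left₀ (norm_nonneg _) (hu w) 2) (sq_nonneg _)

/-- all the projections together -/
noncomputable def fC (u : InfinitePlace K → Fin (N + 1) → Fin N → ℝ)
    (ε : Fin (N + 1) → InfinitePlace K → ℂ) : UK K N →ₗ[ℂ] (Fin (N + 1) → VK K) :=
  LinearMap.pi (PC u ε)

theorem fC_inj (u : InfinitePlace K → Fin (N + 1) → Fin N → ℝ)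
    (ε : Fin (N + 1) → InfinitePlace K → ℂ) (hε : ∀ i w, ‖ε i w‖ = 1)
    (hu : ∀ w, ∀ z : Fin N → ℝ, (∀ j, ∑ k, u w j k * z k = 0) → z = 0) :
    Function.Injective (fC u ε) := by
  rw [← LinearMap.ker_eq_bot, LinearMap.ker_eq_bot']
  intro z hz
  have h0 : ∀ w j, ∑ k, (u w j k : ℂ) * z (w, k) = 0 := by
    intro w j
    have h1 : PC u ε j z w = 0 := by
      have : fC u ε z j = 0 := by rw [hz]; rfl
      have h2 : PC u ε j z = 0 := this
      rw [h2]
      rfl
    rw [PC_apply] at h1
    rcases mul_eq_zero.1 h1 with h | h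
    · have := hε j w
      rw [h, norm_zero] at this
      exact absurd this zero_ne_one
    · exact h
  ext x
  obtain ⟨w, k⟩ := x
  have h1 := hu w (fun k => (z (w, k)).re) (fun j => by
    have := congrArg Complex.re (h0 w j)
    rw [Complex.re_sum] at this
    simpa using this)
  have h2 := hu w (fun k => (z (w, k)).im) (fun j => by
    have := congrArg Complex.im (h0 w j)
    rw [Complex.im_sum] at this
    simpa using this)
  apply Complex.ext
  · exact congrFun h1 k
  · exact congrFun h2 k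

/-- the equation -/
noncomputable def SC (a : Fin (N + 1) → 𝓞 K) : (Fin (N + 1) → VK K) →ₗ[ℂ] VK K where
  toFun y := WithLp.toLp 2 fun w => ∑ i, w.embedding (a i : K) * y i w
  map_add' x y := by
    ext w
    simp [mul_add, Finset.sum_add_distrib]
  map_smul' c x := by
    ext w
    simp only [PiLp.smul_apply, smul_eq_mul, RingHom.id_apply, Pi.smul_apply]
    rw [Finset.mul_sum]
    refine Finset.sum_congr rfl fun i _ => ?_
    ring

theorem SC_apply (a : Fin (N + 1) → 𝓞 K) (y : Fin (N + 1) → VK K) (w : InfinitePlace K) :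
    SC a y w = ∑ i, w.embedding (a i : K) * y i w := rfl

theorem SC_surj (a : Fin (N + 1) → 𝓞 K) (i : Fin (N + 1)) (hi : a i ≠ 0) :
    Function.Surjective (SC a) := by
  classical
  intro t
  refine ⟨Pi.single i (WithLp.toLp 2 fun w => t w / w.embedding (a i : K)), ?_⟩
  ext w
  rw [SC_apply, Finset.sum_eq_single i]
  · rw [Pi.single_eq_same]
    show w.embedding (a i : K) * (t w / w.embedding (a i : K)) = t w
    have h1 : w.embedding (a i : K) ≠ 0 := by
      rw [Ne, map_eq_zero]
      exact fun h => hi (RingOfIntegers.coe_injective (h.trans (map_zero _).symm))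
    field_simp
  · intro k _ hk
    rw [Pi.single_eq_of_ne hk]
    simp
  · intro h
    exact absurd (Finset.mem_univ i) h

theorem range_fC (a : Fin (N + 1) → 𝓞 K) (i : Fin (N + 1)) (hi : a i ≠ 0)
    (u : InfinitePlace K → Fin (N + 1) → Fin N → ℝ)
    (ε : Fin (N + 1) → InfinitePlace K → ℂ) (hε : ∀ i w, ‖ε i w‖ = 1)
    (hεa : ∀ i w, w.embedding (a i : K) * ε i w = (w (a i : K) : ℂ))
    (hu1 : ∀ w, ∀ k, ∑ j, w (a j : K) * u w j k = 0)
    (hu : ∀ w, ∀ z : Fin N → ℝ, (∀ j, ∑ k, u w j k * z k = 0) → z = 0) :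
    LinearMap.range (fC u ε) = LinearMap.ker (SC a) := by
  apply Submodule.eq_of_le_of_finrank_eq
  · rintro _ ⟨z, rfl⟩
    rw [LinearMap.mem_ker]
    ext w
    rw [SC_apply]
    show ∑ i, w.embedding (a i : K) * PC u ε i z w = 0
    simp only [PC_apply, ← mul_assoc, hεa]
    simp only [Finset.mul_sum]
    rw [Finset.sum_comm]
    refine Finset.sum_eq_zero fun k _ => ?_
    simp only [← mul_assoc]
    rw [← Finset.sum_mul]
    have := congrArg (fun r : ℝ => (r : ℂ)) (hu1 w k)
    simp only [Complex.ofReal_sum, Complex.ofReal_mul, Complex.ofReal_zero] at this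
    rw [this, zero_mul]
  · have h1 := LinearMap.finrank_range_of_inj (fC_inj u ε hε hu)
    have h2 := LinearMap.finrank_range_add_finrank_ker (SC a)
    have h3 : LinearMap.range (SC a) = ⊤ := LinearMap.range_eq_top.2 (SC_surj a i hi)
    rw [h3, finrank_top, finrank_euclideanSpace, Module.finrank_pi_fintype] at h2
    simp only [finrank_euclideanSpace, Finset.sum_const, Finset.card_univ, Fintype.card_fin,
      smul_eq_mul] at h2
    rw [h1, finrank_euclideanSpace, Fintype.card_prod, Fintype.card_fin]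
    have h4 : (N + 1) * Fintype.card (InfinitePlace K) =
      Fintype.card (InfinitePlace K) + Fintype.card (InfinitePlace K) * N := by ring
    omega

end Pool.Agent.Y794.Sm
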