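import Pool.Agent.Y794.Sm.Geo2

set_option autoImplicit false
set_option linter.unusedSectionVars false

open Finset NumberField Module
open scoped NumberField ComplexConjugate

namespace Pool.Agent.Y794.Sm

variable {K : Type} [Field K] [NumberField K] {N : ℕ}

/-- multiplication by an integer -/
noncomputable def MC (a : 𝓞 K) : VK K →ₗ[ℂ] VK K where
  toFun y := WithLp.toLp 2 fun w => w.embedding (a : K) * y w
  map_add' x y := by
    ext w
    simp [mul_add]
  map_smul' c x := by
    ext w
    simp only [PiLp.smul_apply, smul_eq_mul, RingHom.id_apply]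
    ring

theorem MC_apply (a : 𝓞 K) (y : VK K) (w : InfinitePlace K) :
    MC a y w = w.embedding (a : K) * y w := rfl

theorem MC_j (a x : 𝓞 K) : MC a (jK K x) = jK K (a * x) := by
  ext w
  rw [MC_apply, jK_apply, jK_apply]
  simp

/-- the solutions -/
def XK (a : Fin (N + 1) → 𝓞 K) : Submodule ℤ (Fin (N + 1) → 𝓞 K) where
  carrier := {x | ∑ i, a i * x i = 0}
  add_mem' := by
    intro x y hx hy
    have hx' : ∑ i, a i * x i = 0 := hx
    have hy' : ∑ i, a i * y i = 0 := hy
    show ∑ i, a i * (x + y) i = 0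
    simp only [Pi.add_apply, mul_add, Finset.sum_add_distrib]
    rw [hx', hy', add_zero]
  zero_mem' := by
    show ∑ i, a i * (0 : Fin (N + 1) → 𝓞 K) i = 0
    simp
  smul_mem' := by
    intro c x hx
    have hx' : ∑ i, a i * x i = 0 := hx
    show ∑ i, a i * (c • x) i = 0
    simp only [Pi.smul_apply, mul_smul_comm]
    rw [← Finset.smul_sum, hx', smul_zero]

theorem mem_XK (a : Fin (N + 1) → 𝓞 K) (x : Fin (N + 1) → 𝓞 K) :
    x ∈ XK a ↔ ∑ i, a i * x i = 0 := Iff.rfl

/-- tuples -/
noncomputable def jn (n : ℕ) : (Fin n → 𝓞 K) →+ (Fin n → VK K) where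
  toFun x i := jK K (x i)
  map_zero' := by
    funext i
    simp
  map_add' x y := by
    funext i
    simp

theorem jn_apply (n : ℕ) (x : Fin n → 𝓞 K) (i : Fin n) : jn n x i = jK K (x i) := rfl

theorem SC_jn (a : Fin (N + 1) → 𝓞 K) (x : Fin (N + 1) → 𝓞 K) (hx : x ∈ XK a) :
    SC a (jn (N + 1) x) = 0 := by
  ext w
  rw [SC_apply]
  simp only [jn_apply, jK_apply]
  have h1 : ∑ i, a i * x i = 0 := hx
  have h2 := congrArg (fun y : 𝓞 K => w.embedding (y : K)) h1
  simpa using h2

section

variable (a : Fin (N + 1) → 𝓞 K) (u : InfinitePlace K → Fin (N + 1) → Fin N → ℝ)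
    (ε : Fin (N + 1) → InfinitePlace K → ℂ) (hε : ∀ i w, ‖ε i w‖ = 1)
    (hεr : ∀ i w, w.IsReal → (ε i w).im = 0)
    (hεa : ∀ i w, w.embedding (a i : K) * ε i w = (w (a i : K) : ℂ))
    (hun : ∀ w, ∀ j, ∑ k, u w j k ^ 2 = 1)
    (hu1 : ∀ w, ∀ k, ∑ j, w (a j : K) * u w j k = 0)
    (hu : ∀ w, ∀ z : Fin N → ℝ, (∀ j, ∑ k, u w j k * z k = 0) → z = 0)
    (hul : ∀ w, ∀ i j, i ≠ j → |∑ k, u w i k * u w j k| < 1)

include hε hun in
theorem PA_self (i : Fin (N + 1)) (t : VK K) : PC u ε i (AC u ε i t) = t := by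
  ext w
  rw [PC_AC]
  have h1 : ∑ l, u w i l * u w i l = 1 := by
    rw [← hun w i]
    exact Finset.sum_congr rfl fun k _ => (sq _).symm
  have h2 : ε i w * conj (ε i w) = 1 := by
    rw [Complex.mul_conj, Complex.normSq_eq_norm_sq, hε]
    simp
  rw [h1, h2]
  simp

theorem exists_c (hul : ∀ w, ∀ i j, i ≠ j → |∑ k, u w i k * u w j k| < 1) :
    ∃ c : ℝ, 0 ≤ c ∧ c < 1 ∧ ∀ w, ∀ i j, i ≠ j → |∑ k, u w i k * u w j k| ≤ c := by
  classical
  let S : Finset (InfinitePlace K × Fin (N + 1) × Fin (N + 1)) :=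
    Finset.univ.filter fun x => x.2.1 ≠ x.2.2
  rcases S.eq_empty_or_nonempty with h | h
  · refine ⟨0, le_rfl, zero_lt_one, fun w i j hij => ?_⟩
    have : (w, i, j) ∈ S := Finset.mem_filter.2 ⟨Finset.mem_univ _, hij⟩
    rw [h] at this
    exact absurd this (Finset.notMem_empty _)
  · obtain ⟨x, hx, hmax⟩ := S.exists_max_image (fun x => |∑ k, u x.1 x.2.1 k * u x.1 x.2.2 k|) h
    refine ⟨|∑ k, u x.1 x.2.1 k * u x.1 x.2.2 k|, abs_nonneg _,
      hul _ _ _ (Finset.mem_filter.1 hx).2, fun w i j hij => ?_⟩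
    exact hmax (w, i, j) (Finset.mem_filter.2 ⟨Finset.mem_univ _, hij⟩)

theorem vec_mem (g : (Fin (N + 1) → VK K) →ₗ[ℂ] UK K N) (i k₀ k : Fin (N + 1))
    (hk₀ : k₀ ≠ i) (hk : k ≠ i) (s : VK K) (hs : s ∈ Submodule.span ℝ (Set.range (jK K))) :
    g (Pi.single k (MC (a k₀) s) - Pi.single k₀ (MC (a k) s)) ∈
      Submodule.span ℝ ((fun x => g (jn (N + 1) x)) '' {x | x ∈ XK a ∧ x i = 0}) := by
  classical
  let F : VK K →ₗ[ℝ] UK K N :=
    { toFun := fun s => g (Pi.single k (MC (a k₀) s) - Pi.single k₀ (MC (a k) s))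
      map_add' := by
        intro x y
        rw [map_add, map_add, Pi.single_add, Pi.single_add, ← map_add]
        congr 1
        abel
      map_smul' := by
        intro c x
        have h1 : ∀ (l : Fin (N + 1)) (a : 𝓞 K), (Pi.single l (MC a (c • x)) : Fin (N + 1) → VK K) =
            (c : ℂ) • (Pi.single l (MC a x) : Fin (N + 1) → VK K) := by
          intro l a
          have h2 : (c • x : VK K) = (c : ℂ) • x := (Complex.coe_smul c x).symm
          rw [h2, map_smul, Pi.single_smul]
        rw [h1, h1, ← smul_sub, map_smul]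
        exact Complex.coe_smul c _ }
  have hF : F s ∈ Submodule.map F (Submodule.span ℝ (Set.range (jK K))) := ⟨s, hs, rfl⟩
  have hle : Submodule.map F (Submodule.span ℝ (Set.range (jK K))) ≤
      Submodule.span ℝ ((fun x => g (jn (N + 1) x)) '' {x | x ∈ XK a ∧ x i = 0}) := by
    rw [Submodule.map_span_le]
    rintro _ ⟨x, rfl⟩
    apply Submodule.subset_span
    refine ⟨Pi.single k (a k₀ * x) - Pi.single k₀ (a k * x), ⟨?_, ?_⟩, ?_⟩
    · rw [mem_XK]
      simp only [Pi.sub_apply, mul_sub, Finset.sum_sub_distrib]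
      rw [Finset.sum_eq_single k, Finset.sum_eq_single k₀, Pi.single_eq_same, Pi.single_eq_same]
      · ring
      · intro l _ hl
        rw [Pi.single_eq_of_ne hl, mul_zero]
      · intro h
        exact absurd (Finset.mem_univ _) h
      · intro l _ hl
        rw [Pi.single_eq_of_ne hl, mul_zero]
      · intro h
        exact absurd (Finset.mem_univ _) h
    · rw [Pi.sub_apply, Pi.single_eq_of_ne (Ne.symm hk), Pi.single_eq_of_ne (Ne.symm hk₀), sub_zero]
    · show g _ = g _
      congr 1
      funext l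
      rw [jn_apply, Pi.sub_apply, Pi.sub_apply, map_sub]
      congr 1
      · by_cases h : l = k
        · subst h
          rw [Pi.single_eq_same, Pi.single_eq_same, MC_j]
        · rw [Pi.single_eq_of_ne h, Pi.single_eq_of_ne h, map_zero]
      · by_cases h : l = k₀
        · subst h
          rw [Pi.single_eq_same, Pi.single_eq_same, MC_j]
        · rw [Pi.single_eq_of_ne h, Pi.single_eq_of_ne h, map_zero]
  exact hle hF

include hε hεr hεa hun hu1 hu hul in
theorem exists_dat (h5 : ∀ (i : Fin (N + 1)) (t : 𝓞 K), ∃ x ∈ XK a, x i = t)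
    (hne : ∀ i : Fin (N + 1), ∃ k, k ≠ i ∧ a k ≠ 0) :
    ∃ D : Dat (N + 1) (𝓞 K) (VK K) (UK K N), D.X = XK a := by
  classical
  obtain ⟨c, hc0, hc1, hc⟩ := exists_c u hul
  obtain ⟨k₁, -, hk₁⟩ := hne 0
  have hinj := fC_inj u ε hε hu
  have hran := range_fC a k₁ hk₁ u ε hε hεa hu1 hu
  obtain ⟨g, hg⟩ := (fC u ε).exists_leftInverse_of_injective (LinearMap.ker_eq_bot.2 hinj)
  have hg1 : ∀ z, g (fC u ε z) = z := fun z => congrArg (fun F : UK K N →ₗ[ℂ] UK K N => F z) hg
  have hg2 : ∀ y, SC a y = 0 → fC u ε (g y) = y := by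
    intro y hy
    have : y ∈ LinearMap.range (fC u ε) := by
      rw [hran]
      exact hy
    obtain ⟨z, rfl⟩ := this
    rw [hg1]
  have h3 : ∀ x ∈ XK a, ∀ i, PC u ε i (g (jn (N + 1) x)) = jK K (x i) := by
    intro x hx i
    have := hg2 _ (SC_jn a x hx)
    exact congrFun this i
  refine ⟨
    { X := XK a
      j := jK K
      ι := g.toAddMonoidHom.comp (jn (N + 1))
      P := fun i => (PC u ε i).restrictScalars ℝ
      A := fun i => (AC u ε i).restrictScalars ℝ
      h1 := fun i t => PA_self u ε hε hun i t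
      h2 := fun i t z => inner_AC u ε i t z
      h3 := h3
      c := c
      hc0 := hc0
      hc1 := hc1
      h4 := fun i k hk t => norm_PC_AC u ε hε c hc0 i k (fun w => hc w k i hk) t
      h5 := h5
      h6 := fun m b hb => indep_one K m b hb
      h7 := ?_
      h8 := ?_ }, rfl⟩
  · intro i x hx
    obtain ⟨k₀, hk₀, hak₀⟩ := hne i
    show g (jn (N + 1) x) - AC u ε i (jK K (x i)) ∈
      Submodule.span ℝ ((fun x => g (jn (N + 1) x)) '' {x | x ∈ XK a ∧ x i = 0})
    set y := g (jn (N + 1) x) - AC u ε i (jK K (x i)) with hy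
    let Y : Fin (N + 1) → VK K := fC u ε y
    have hYdef : ∀ k, Y k = jK K (x k) - PC u ε k (AC u ε i (jK K (x i))) := by
      intro k
      show PC u ε k y = _
      rw [hy, map_sub, h3 x hx]
    have hYi : Y i = 0 := by
      rw [hYdef, PA_self u ε hε hun, sub_self]
    have hjr : ∀ (t : 𝓞 K) (w : InfinitePlace K), w.IsReal → (jK K t w).im = 0 := by
      intro t w hw
      rw [jK_apply, ← InfinitePlace.embedding_of_isReal_apply hw]
      exact Complex.ofReal_im _
    have hYr : ∀ k w, InfinitePlace.IsReal w → (Y k w).im = 0 := by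
      intro k w hw
      rw [hYdef, PiLp.sub_apply, PC_AC, Complex.sub_im, hjr _ w hw]
      have h1 : ∀ z : ℂ, z.im = 0 → ∃ r : ℝ, z = r := fun z hz =>
        ⟨z.re, Complex.ext rfl (by simp [hz])⟩
      obtain ⟨r1, hr1⟩ := h1 _ (hεr k w hw)
      obtain ⟨r2, hr2⟩ := h1 _ (hεr i w hw)
      obtain ⟨r3, hr3⟩ := h1 _ (hjr (x i) w hw)
      rw [hr1, hr2, hr3, Complex.conj_ofReal, ← Complex.ofReal_mul, ← Complex.ofReal_mul,
        ← Complex.ofReal_mul, Complex.ofReal_im, sub_zero]
    have hSY : ∀ w, ∑ k, w.embedding (a k : K) * Y k w = 0 := by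
      intro w
      have h1 : Y ∈ LinearMap.ker (SC a) := by
        rw [← hran]
        exact ⟨y, rfl⟩
      have h2 : SC a Y = 0 := h1
      rw [← SC_apply, h2]
      rfl
    have hσ : ∀ w : InfinitePlace K, w.embedding (a k₀ : K) ≠ 0 := by
      intro w
      rw [Ne, map_eq_zero]
      exact fun h => hak₀ (RingOfIntegers.coe_injective (h.trans (map_zero _).symm))
    let s : Fin (N + 1) → VK K := fun k => WithLp.toLp 2 fun w => Y k w / w.embedding (a k₀ : K)
    have hs : ∀ k w, s k w = Y k w / w.embedding (a k₀ : K) := fun k w => rfl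
    have hsmem : ∀ k, s k ∈ Submodule.span ℝ (Set.range (jK K)) := by
      intro k
      apply mem_span_of_real
      intro w hw
      rw [hs, ← InfinitePlace.embedding_of_isReal_apply hw]
      have h1 : Y k w = ((Y k w).re : ℂ) := Complex.ext rfl (by simp [hYr k w hw])
      rw [h1, ← Complex.ofReal_div]
      exact Complex.ofReal_im _
    have hsum : Y = ∑ k, ((Pi.single k (MC (a k₀) (s k)) : Fin (N + 1) → VK K) -
        Pi.single k₀ (MC (a k) (s k))) := by
      funext l
      ext w
      rw [Finset.sum_sub_distrib, Pi.sub_apply, PiLp.sub_apply, Finset.sum_apply,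
        Finset.sum_apply, Finset.sum_eq_single l, Pi.single_eq_same, MC_apply, hs]
      · have h1 : (∑ k, (Pi.single k₀ (MC (a k) (s k)) : Fin (N + 1) → VK K) l) w = 0 := by
          by_cases hl : l = k₀
          · subst hl
            simp only [Pi.single_eq_same]
            have h2 : (∑ k, MC (a k) (s k)) w = ∑ k, MC (a k) (s k) w := by
              rw [WithLp.ofLp_sum, Finset.sum_apply]
            rw [h2]
            have h3 : ∀ k, MC (a k) (s k) w = (w.embedding (a k : K) * Y k w) /
                w.embedding (a l : K) := by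
              intro k
              rw [MC_apply, hs, mul_div_assoc]
            simp only [h3]
            rw [← Finset.sum_div, hSY, zero_div]
          · simp only [Pi.single_eq_of_ne hl]
            simp
        rw [h1, sub_zero, mul_div_cancel₀ _ (hσ w)]
      · intro k _ hk
        rw [Pi.single_eq_of_ne (Ne.symm hk)]
      · intro h
        exact absurd (Finset.mem_univ _) h
    have hyY : y = ∑ k, g ((Pi.single k (MC (a k₀) (s k)) : Fin (N + 1) → VK K) -
        Pi.single k₀ (MC (a k) (s k))) := by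
      rw [← map_sum, ← hsum]
      exact (hg1 y).symm
    rw [hyY]
    refine Submodule.sum_mem _ fun k _ => ?_
    by_cases hki : k = i
    · have h1 : s k = 0 := by
        ext w
        rw [hs, hki, hYi]
        simp
      rw [h1, map_zero, map_zero, Pi.single_zero, Pi.single_zero, sub_zero, map_zero]
      exact Submodule.zero_mem _
    · exact vec_mem a g i k₀ k hk₀ hki (s k) (hsmem k)
  · intro m b hb hli
    have h1 := indep_tuple K m b hli
    rw [Fintype.linearIndependent_iff] at h1 ⊢
    intro c hc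
    apply h1
    have h2 := congrArg (fun y => fC u ε y) hc
    simp only [map_sum, map_zero] at h2
    rw [← h2]
    refine Finset.sum_congr rfl fun k _ => ?_
    have h3 : fC u ε (g (jn (N + 1) (b k))) = jn (N + 1) (b k) := hg2 _ (SC_jn a _ (hb k))
    have h4 : ∀ (r : ℝ) (z : UK K N), fC u ε (r • z) = r • fC u ε z := fun r z => by
      have h5 : (r • z : UK K N) = (r : ℂ) • z := (Complex.coe_smul r z).symm
      rw [h5, map_smul]
      exact Complex.coe_smul r _
    show c k • (fun x => jK K (b k x)) = fC u ε (c k • g (jn (N + 1) (b k)))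
    rw [h4, h3]
    rfl

end

end Pool.Agent.Y794.Sm
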